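import Pool.Agent.H67.AG.T4

/-!
ABSOLUTE GAP (`MP_c59857_nt`): row A3, finite combinatorics.
-/

set_option autoImplicit false

open MeasureTheory ProbabilityTheory Filter Topology Finset
open scoped Nat ENNReal

namespace Pool.Agent.H60.AG

open Pool.Agent.H67.AG

theorem pf_A3 : T_A3 := by
  intro k a ha h
  have key : ∀ I : Finset (Fin k), ∑ i ∈ I, a i ≤ 17 * κ₀ := by
    intro I
    induction I using Finset.induction_on with
    | empty =>
      have : (0 : ℝ) ≤ 17 * κ₀ := by unfold κ₀; norm_num
      simpa using this
    | insert i I hi ih =>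
      have h1 := h (insert i I)
      have h2 := ha i
      rw [Finset.sum_insert hi] at h1 ⊢
      unfold κ₀ at *
      set t := ∑ x ∈ I, a x with ht
      by_contra hcon
      push Not at hcon
      nlinarith [mul_nonneg (sub_nonneg.mpr hcon.le)
        (show (0 : ℝ) ≤ 17 * (1 / 10000) + 1 - (a i + t) by linarith [h2.2])]
  exact key Finset.univ

end Pool.Agent.H60.AG
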