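import Pool.Agent.H67.AG.T1
import Pool.Agent.H67.AG.T4

/-!
ABSOLUTE GAP (`MP_c59857_nt`): row JT, the self-joining over the trivial σ-algebra.
-/

set_option autoImplicit false

open MeasureTheory ProbabilityTheory Filter Topology Finset
open scoped Nat ENNReal

namespace Pool.Agent.H60.AG

open Pool.Agent.H67.AG

theorem pf_JT (h1 : T_J1) (h2 : T_J2) : T_JT := by
  intro X _ _ μ _
  have hp : IsProbabilityMeasure (JJ μ (triv X)) := (h2 X μ (triv X)).1
  symm
  refine Measure.prod_eq fun s t hs ht => ?_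
  have hbd : ∀ (A : Set X), ∃ C : ℝ, ∀ x, |A.indicator (fun _ => (1 : ℝ)) x| ≤ C := by
    intro A
    refine ⟨1, fun x => ?_⟩
    by_cases hx : x ∈ A
    · simp [hx]
    · simp [hx]
  have key := h1 X μ (triv X) (s.indicator fun _ => (1 : ℝ)) (t.indicator fun _ => (1 : ℝ))
    (measurable_const.indicator hs) (measurable_const.indicator ht) (hbd s) (hbd t)
  have hl : ∫ q, s.indicator (fun _ => (1 : ℝ)) q.1 * t.indicator (fun _ => (1 : ℝ)) q.2
      ∂(JJ μ (triv X)) = (JJ μ (triv X)).real (s ×ˢ t) := by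
    have he : (fun q : X × X => s.indicator (fun _ => (1 : ℝ)) q.1 *
        t.indicator (fun _ => (1 : ℝ)) q.2) = (s ×ˢ t).indicator (fun _ => (1 : ℝ)) := by
      funext q
      by_cases h1 : q.1 ∈ s
      · by_cases h2 : q.2 ∈ t
        · have : q ∈ s ×ˢ t := ⟨h1, h2⟩
          simp [h1, h2, this]
        · have : q ∉ s ×ˢ t := fun h => h2 h.2
          simp [h2, this]
      · have : q ∉ s ×ˢ t := fun h => h1 h.1
        simp [h1, this]
    rw [he, integral_indicator (hs.prod ht)]
    simp
  have hr : ∀ (A : Set X), MeasurableSet A → μ[A.indicator (fun _ => (1 : ℝ)) | (triv X).1] =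
      fun _ => μ.real A := by
    intro A hA
    have : (triv X).1 = ⊥ := rfl
    rw [this, condExp_bot, integral_indicator hA]
    simp
  rw [hl, hr s hs, hr t ht] at key
  simp only [integral_const, probReal_univ, smul_eq_mul, one_mul] at key
  have h3 : (JJ μ (triv X)) (s ×ˢ t) = ENNReal.ofReal ((JJ μ (triv X)).real (s ×ˢ t)) := by
    rw [Measure.real, ENNReal.ofReal_toReal (measure_ne_top _ _)]
  rw [h3, key, ENNReal.ofReal_mul measureReal_nonneg, Measure.real, Measure.real,
    ENNReal.ofReal_toReal (measure_ne_top _ _), ENNReal.ofReal_toReal (measure_ne_top _ _)]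

end Pool.Agent.H60.AG
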