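import Pool.Agent.H67.AG.T3

/-!
ABSOLUTE GAP (`MP_c59857_nt`): row UL, limits along ultrafilters of bounded sequences.
-/

set_option autoImplicit false

open MeasureTheory ProbabilityTheory Filter Topology Finset
open scoped Nat ENNReal

namespace Pool.Agent.H60.AG

open Pool.Agent.H67.AG

theorem tendsto_ul (U : Ultrafilter ℕ) (f : ℕ → ℝ) (hf : ∃ C, ∀ n, |f n| ≤ C) :
    Tendsto f (U : Filter ℕ) (𝓝 (ul U f)) := by
  obtain ⟨C, hC⟩ := hf
  have hcomp : IsCompact (Set.Icc (-C) C) := isCompact_Icc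
  have hmem : ((U.map f : Ultrafilter ℝ) : Filter ℝ) ≤ 𝓟 (Set.Icc (-C) C) := by
    rw [Filter.le_principal_iff, Ultrafilter.mem_coe, Ultrafilter.mem_map]
    have : f ⁻¹' Set.Icc (-C) C = Set.univ := by
      ext n
      simp only [Set.mem_preimage, Set.mem_Icc, Set.mem_univ, iff_true]
      exact abs_le.mp (hC n)
    rw [this]
    exact Filter.univ_mem
  obtain ⟨x, -, hx⟩ := hcomp.ultrafilter_le_nhds (U.map f) hmem
  have hx' : Tendsto f (U : Filter ℕ) (𝓝 x) := by
    rw [Ultrafilter.coe_map] at hx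
    exact hx
  unfold ul
  exact tendsto_nhds_limUnder ⟨x, hx'⟩

theorem ul_eq (U : Ultrafilter ℕ) (f : ℕ → ℝ) (a : ℝ) (h : Tendsto f (U : Filter ℕ) (𝓝 a)) :
    ul U f = a := by
  unfold ul
  exact h.limUnder_eq

theorem pf_UL : T_UL := by
  intro U
  refine ⟨tendsto_ul U, ?_, ?_, ?_, ?_⟩
  · intro f g hf hg hfg
    exact le_of_tendsto_of_tendsto (tendsto_ul U f hf) (tendsto_ul U g hg) hfg
  · intro f g hf hg
    exact ul_eq U _ _ ((tendsto_ul U f hf).add (tendsto_ul U g hg))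
  · intro f a hf
    exact ul_eq U _ _ ((tendsto_ul U f hf).const_mul a)
  · intro a
    exact ul_eq U _ _ tendsto_const_nhds

end Pool.Agent.H60.AG
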