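import Pool.Agent.H38.AG.Targets

/-!
# (ETS) two-sided energy inequality
-/

set_option autoImplicit false

namespace Pool.Agent.H60.AG

open Pool.Agent.H38.RB Pool.Agent.H38.PS Pool.Agent.H82.RD Pool.Agent.H38.AB Pool.Agent.H38.AG

theorem ets_card {G P P' : Type} [Fintype G] [DecidableEq G] (s : Finset P) (s' : Finset P')
    (φ : P → G) (φ' : P' → G) :
    (((s ×ˢ s').filter (fun x => φ x.1 = φ' x.2)).card : ℝ) =
      ∑ g : G, ((s.filter (fun x => φ x = g)).card : ℝ) * ((s'.filter (fun x => φ' x = g)).card : ℝ) := by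
  classical
  have h1 : ∀ g : G, ((s.filter (fun x => φ x = g)).card : ℝ) *
      ((s'.filter (fun x => φ' x = g)).card : ℝ) =
      ∑ x ∈ s, ∑ y ∈ s', (if φ x = g then 1 else 0) * (if φ' y = g then 1 else 0) := by
    intro g
    rw [Finset.card_filter, Finset.card_filter]
    push_cast
    rw [Finset.sum_mul_sum]
  rw [Finset.sum_congr rfl fun g _ => h1 g, Finset.sum_comm, Finset.card_filter]
  push_cast
  rw [Finset.sum_product]
  refine Finset.sum_congr rfl fun x _ => ?_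
  rw [Finset.sum_comm]
  refine Finset.sum_congr rfl fun y _ => ?_
  rw [Finset.sum_eq_single (φ x)]
  · by_cases h : φ x = φ' y
    · simp [h]
    · have h2 : ¬ φ' y = φ x := fun h' => h h'.symm
      simp [h, h2]
  · intro g _ hg
    rw [if_neg (Ne.symm hg), zero_mul]
  · intro h
    exact absurd (Finset.mem_univ _) h

theorem ets_swap {G ι : Type} [CommGroup G] [Fintype G] [DecidableEq G] (A : Finset ι)
    (f : ι → G) (H : Finset G) :
    (((A ×ˢ A) ×ˢ (H ×ˢ H)).filter (fun t => f t.1.1 * t.2.1 = f t.1.2 * t.2.2)).card =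
      (((A ×ˢ H) ×ˢ (A ×ˢ H)).filter (fun t => f t.1.1 * t.1.2 = f t.2.1 * t.2.2)).card := by
  classical
  refine Finset.card_equiv (Equiv.prodProdProdComm ι ι G G) ?_
  rintro ⟨⟨a, b⟩, ⟨c, d⟩⟩
  simp only [Finset.mem_filter, Finset.mem_product, Equiv.prodProdProdComm_apply]
  tauto

theorem pf_ETS : T_ETS := by
  classical
  intro G ι ι' _ _ _ _ _ A A' f f' H₁ H₂ hsub hmul
  set s := A ×ˢ H₂ with hs
  set s' := A' ×ˢ H₂ with hs'
  set φ : ι × G → G := fun x => f x.1 * x.2 with hφ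
  set φ' : ι' × G → G := fun x => f' x.1 * x.2 with hφ'
  have hE : ((((A ×ˢ A) ×ˢ (H₂ ×ˢ H₂)).filter
      (fun t => f t.1.1 * t.2.1 = f t.1.2 * t.2.2)).card : ℝ) =
      ∑ g : G, ((s.filter (fun x => φ x = g)).card : ℝ) ^ 2 := by
    rw [ets_swap A f H₂]
    have := ets_card s s φ φ
    rw [Finset.sum_congr rfl fun g _ => sq _]
    exact this
  have hE' : ((((A' ×ˢ A') ×ˢ (H₂ ×ˢ H₂)).filter
      (fun t => f' t.1.1 * t.2.1 = f' t.1.2 * t.2.2)).card : ℝ) =
      ∑ g : G, ((s'.filter (fun x => φ' x = g)).card : ℝ) ^ 2 := by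
    rw [ets_swap A' f' H₂]
    have := ets_card s' s' φ' φ'
    rw [Finset.sum_congr rfl fun g _ => sq _]
    exact this
  rw [hE, hE']
  refine le_trans ?_ (Real.sum_mul_le_sqrt_mul_sqrt Finset.univ _ _)
  rw [← ets_card s s' φ φ']
  set T := (A ×ˢ A').filter (fun t => ∃ z ∈ H₁, f t.1 = z * f' t.2) with hT
  have hch : ∀ t : ι × ι', ∃ z : G, t ∈ T → z ∈ H₁ ∧ f t.1 = z * f' t.2 := by
    intro t
    by_cases ht : t ∈ T
    · obtain ⟨z, hz, hz'⟩ := (Finset.mem_filter.1 ht).2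
      exact ⟨z, fun _ => ⟨hz, hz'⟩⟩
    · exact ⟨1, fun h => absurd h ht⟩
  choose ζ hζ using hch
  rw [← Nat.cast_mul, ← Finset.card_product]
  have hle : (T ×ˢ H₁).card ≤ ((s ×ˢ s').filter (fun x => φ x.1 = φ' x.2)).card := by
    refine Finset.card_le_card_of_injOn
      (fun u => ((u.1.1, u.2), (u.1.2, ζ u.1 * u.2))) ?_ ?_
    · rintro ⟨⟨t, t'⟩, h⟩ hu
      rw [Finset.mem_coe, Finset.mem_product] at hu
      obtain ⟨hu1, hu2⟩ := hu
      have hA := Finset.mem_product.1 (Finset.mem_filter.1 hu1).1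
      obtain ⟨hz1, hz2⟩ := hζ (t, t') hu1
      rw [Finset.mem_coe, Finset.mem_filter, Finset.mem_product]
      refine ⟨⟨Finset.mem_product.2 ⟨hA.1, hsub hu2⟩,
        Finset.mem_product.2 ⟨hA.2, hmul _ hz1 _ hu2⟩⟩, ?_⟩
      simp only [hφ, hφ']
      simp only at hz2
      rw [hz2]
      rw [mul_comm (ζ (t, t')) (f' t'), mul_assoc]
    · rintro ⟨⟨t, t'⟩, h⟩ _ ⟨⟨u, u'⟩, h'⟩ _ heq
      simp only [Prod.mk.injEq] at heq ⊢
      exact ⟨⟨heq.1.1, heq.2.1⟩, heq.1.2⟩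
  exact_mod_cast hle

end Pool.Agent.H60.AG
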