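import Pool.Agent.H38.AG.Targets

/-!
# (RLM) the machine for spaces of relations
-/

set_option autoImplicit false

namespace Pool.Agent.H60.AG

open Pool.Agent.H38.RB Pool.Agent.H38.PS Pool.Agent.H82.RD Pool.Agent.H38.AB Pool.Agent.H38.AG

theorem rlm_qh {q : ℕ} (hq : q.Prime) : 0 < qh q ∧ qh q ≤ 4 * q := by
  unfold qh
  have := hq.two_le
  split_ifs with h
  · omega
  · omega

theorem rlm_mono {A B x r : ℕ} (hA : 1 ≤ A) (hx : x ≤ r) :
    (x + 1) * B * ((x + 1) * A) ^ x ≤ (r + 1) * B * ((r + 1) * A) ^ r := by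
  have h1 : (x + 1) * A ≤ (r + 1) * A := Nat.mul_le_mul_right _ (by omega)
  have h2 : ((x + 1) * A) ^ x ≤ ((r + 1) * A) ^ r :=
    (Nat.pow_le_pow_left h1 x).trans (Nat.pow_le_pow_right (Nat.mul_pos (by omega) hA) hx)
  exact Nat.mul_le_mul (Nat.mul_le_mul_right _ (by omega)) h2

theorem pf_RLM (hRDH : T_RDH) (hMRS : T_MRS) (hMTH : T_MTH) : T_RLM := by
  classical
  intro q hq e Bd T A B J Q hQ hT hBd hA hB hJ hJ2 hnum hNC
  have key : ∀ c : ℕ, ∃ u : ℕ, u + DQ q e Bd J Q ≤ Q.card ∧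
      (Kaq q T c Q).card ≤ (u + 1) * B * ((u + 1) * A) ^ u := by
    intro c
    obtain ⟨r, κ, W, den, num, ζ, U, hκ, hM, hU, hfin⟩ :=
      hRDH q e Bd T c J Q hQ hT hBd hJ hJ2
    obtain ⟨W', num', ζ', hM'⟩ := hMRS q r (Q → ℕ) (Kaq q T c Q) W _ den num ζ κ _ _ _ _ U
      (Kaq q T c Q) hM (Finset.Subset.refl _) (fun s _ s' _ => hU s s')
    obtain ⟨h1, h2⟩ := hnum κ hκ
    refine ⟨Module.finrank ℚ_[q] U, hfin, ?_⟩
    exact hMTH q _ (Q → ℕ) (Kaq q T c Q) W' _ den num' ζ' κ (e - 3) _ _ _ A B hM' hA hB h1 h2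
      (fun u hu1 hu2 => hNC u hu1 (by omega))
  choose u hu1 hu2 using key
  obtain ⟨hq0, hq4⟩ := rlm_qh hq.out
  set r := (Finset.range (qh q)).sup u with hr
  have hru : ∀ c ∈ Finset.range (qh q), u c ≤ r := fun c hc => Finset.le_sup (f := u) hc
  refine ⟨r, ?_, ?_⟩
  · have h3 : r ≤ Q.card - DQ q e Bd J Q := by
      refine Finset.sup_le fun c _ => ?_
      have := hu1 c
      omega
    have h4 := hu1 0
    omega
  · have h5 : (Fintype.piFinset fun _ : Q => Finset.range (T + 1)).card = (T + 1) ^ Q.card := by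
      rw [Fintype.card_piFinset]
      simp
    rw [← h5, Finset.card_eq_sum_card_fiberwise (t := Finset.range (qh q))
      (f := fun k : Q → ℕ => (∏ p : Q, (p : ℕ) ^ k p) % qh q) (fun k _ => by
        rw [Finset.mem_coe, Finset.mem_range]
        exact Nat.mod_lt _ hq0)]
    calc ∑ c ∈ Finset.range (qh q), ((Fintype.piFinset fun _ : Q => Finset.range (T + 1)).filter
          fun k => (∏ p : Q, (p : ℕ) ^ k p) % qh q = c).card
        ≤ ∑ _c ∈ Finset.range (qh q), (r + 1) * B * ((r + 1) * A) ^ r :=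
          Finset.sum_le_sum fun c hc => (hu2 c).trans (rlm_mono hA (hru c hc))
      _ = qh q * ((r + 1) * B * ((r + 1) * A) ^ r) := by
          rw [Finset.sum_const, Finset.card_range, smul_eq_mul]
      _ ≤ 4 * q * ((r + 1) * B * ((r + 1) * A) ^ r) := Nat.mul_le_mul_right _ hq4

end Pool.Agent.H60.AG
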